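import Pool.Agent.Work.MP_02f065_gt.RPn.Defs
import Pool.Agent.Work.MP_02f065_gt.RP3.BridgeDefs
import Pool.Agent.Work.MP_02f065_gt.Toric.Stmts

/-!
Statements of the items for MP_02f065_gt in all dimensions (SO(P) x SO(Q)-invariant metrics on
RP^(P+Q-1)). Each item `X` is to be proved as `theorem itemX : claimX` (hypotheses that are
other claims may be used).
-/

open MeasureTheory Set Filter Topology

noncomputable section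

namespace Pool.Agent.Work.MP_02f065_gt.RPn

/-- The special orthogonal group. -/
abbrev SO (n : ℕ) : Submonoid (Matrix (Fin n) (Fin n) ℝ) := Matrix.specialOrthogonalGroup (Fin n) ℝ

/-! ### Part A: metric geometry of S^n and RP^n (as in Toric/Stmts, general index type) -/

/-- A C^1 arc on a compact parameter interval, with derivative `c'`. -/
structure IsArc {ι : Type} [Fintype ι] (c c' : ℝ → E ι) (a b : ℝ) : Prop where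
  deriv : ∀ t ∈ Icc a b, HasDerivWithinAt c (c' t) (Icc a b) t
  cont : ContinuousOn c' (Icc a b)
  sphere : ∀ t ∈ Icc a b, ‖c t‖ = 1

/-- Length of an arc. -/
def arcLength {ι : Type} (g : Field ι) (c c' : ℝ → E ι) (a b : ℝ) : ℝ :=
  ∫ t in a..b, Real.sqrt (g (c t) (c' t) (c' t))

def claimA1 : Prop := ∀ (ι : Type) [Fintype ι] (g : Field ι), IsMetric g →
  ∃ m M : ℝ, 0 < m ∧ 0 < M ∧ ∀ x v : E ι, ‖x‖ = 1 → inner ℝ x v = 0 →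
    m ^ 2 * ‖v‖ ^ 2 ≤ g x v v ∧ g x v v ≤ M ^ 2 * ‖v‖ ^ 2

def claimA2 : Prop := ∀ (ι : Type) [Fintype ι] (g : Field ι) (c c' : ℝ → E ι) (a b : ℝ),
  IsMetric g → a < b → IsArc c c' a b →
  ∃ k, IsCurve k (c a) (c b) ∧ length g k = arcLength g c c' a b

def claimA3 : Prop := ∀ (ι : Type) [Fintype ι] (g : Field ι) (c d : ℝ → E ι) (x y z : E ι),
  IsMetric g → IsCurve c x y → IsCurve d y z →
  ∃ k, IsCurve k x z ∧ length g k = length g c + length g d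

/-- Comparison of the distance with the Euclidean one. -/
def claimA4a : Prop := ∀ (ι : Type) [Fintype ι] [Nontrivial ι] (g : Field ι), IsMetric g →
  ∃ m M : ℝ, 0 < m ∧ 0 < M ∧
    ∀ x y : E ι, ‖x‖ = 1 → ‖y‖ = 1 → (∃ c, IsCurve c x y) ∧
      m * ‖x - y‖ ≤ rdist g x y ∧ rdist g x y ≤ M * ‖x - y‖

/-- Basic properties of the distance. -/
def claimA4b : Prop := ∀ (ι : Type) [Fintype ι] [Nontrivial ι] (g : Field ι), IsMetric g →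
  (∀ (x y : E ι) (c : ℝ → E ι), IsCurve c x y → rdist g x y ≤ length g c) ∧
  ∀ x y z : E ι, ‖x‖ = 1 → ‖y‖ = 1 → ‖z‖ = 1 →
    rdist g y x = rdist g x y ∧ rdist g (-x) (-y) = rdist g x y ∧
    rdist g x z ≤ rdist g x y + rdist g y z

/-- Shortest paths exist. -/
def claimA5 : Prop := ∀ (ι : Type) [Fintype ι] [Nontrivial ι] (g : Field ι) (x y : E ι),
  IsMetric g → ‖x‖ = 1 → ‖y‖ = 1 →
  ∃ c : ℝ → E ι, (∀ t, ‖c t‖ = 1) ∧ c 0 = x ∧ c (rdist g x y) = y ∧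
    ∀ s ∈ Icc 0 (rdist g x y), ∀ t ∈ Icc 0 (rdist g x y), rdist g (c s) (c t) = |s - t|

/-- The systole and its closed geodesic. -/
def claimA6 : Prop := ∀ (ι : Type) [Fintype ι] [Nontrivial ι] (g : Field ι), IsMetric g →
  ∃ L : ℝ, 0 < L ∧
    (∀ (x : E ι) (c : ℝ → E ι), ‖x‖ = 1 → IsCurve c x (-x) → L ≤ length g c) ∧
    ∃ γ, IsClosedGeodesic g γ L

/-! ### The block action -/

def claimR : Prop := ∀ (P Q : ℕ), ∀ A ∈ SO P, ∀ B ∈ SO Q, ∀ (x y : E (Ix P Q)) (t : ℝ),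
  blk A B (x + y) = blk A B x + blk A B y ∧ blk A B (t • x) = t • blk A B x ∧
  blk A B (-x) = -blk A B x ∧
  inner ℝ (blk A B x) (blk A B y) = inner ℝ x y ∧ ‖blk A B x‖ = ‖x‖ ∧
  (∀ A' ∈ SO P, ∀ B' ∈ SO Q, blk A B (blk A' B' x) = blk (A * A') (B * B') x) ∧
  blk (1 : Matrix (Fin P) (Fin P) ℝ) (1 : Matrix (Fin Q) (Fin Q) ℝ) x = x

/-- Rotation to the first axis. -/
def claimK : Prop := ∀ (P : ℕ), 2 ≤ P → ∀ u : Fin P → ℝ, ∃ A ∈ SO P,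
  A.mulVec u = fun i => if i.val = 0 then Real.sqrt (∑ j, u j ^ 2) else 0

/-- A probability measure on SO(n), invariant under right multiplication. -/
structure HaarData (n : ℕ) where
  Ω : Type
  ms : MeasurableSpace Ω
  μ : Measure Ω
  prob : IsProbabilityMeasure μ
  m : Ω → Matrix (Fin n) (Fin n) ℝ
  mem : ∀ ω, m ω ∈ SO n
  meas : ∀ i j, Measurable fun ω => m ω i j
  inv : ∀ T ∈ SO n, ∀ F : Matrix (Fin n) (Fin n) ℝ → ℝ, ContinuousOn F (SO n : Set _) →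
    ∫ ω, F (m ω * T) ∂μ = ∫ ω, F (m ω) ∂μ

def claimHaar : Prop := ∀ n : ℕ, Nonempty (HaarData n)

/-- Average over SO(P) x SO(Q). -/
def avg {P Q : ℕ} (HP : HaarData P) (HQ : HaarData Q) (lam : E (Ix P Q) → ℝ)
    (x : E (Ix P Q)) : ℝ :=
  letI := HP.ms
  letI := HQ.ms
  ∫ ω, ∫ ω', lam (blk (HP.m ω) (HQ.m ω') x) ∂HQ.μ ∂HP.μ

/-! ### Part B: averaging -/

/-- Properties of the average. -/
def claimBA : Prop := ∀ (P Q : ℕ), 1 ≤ P → 1 ≤ Q → ∀ (HP : HaarData P) (HQ : HaarData Q)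
  (lam : E (Ix P Q) → ℝ), ContinuousOn lam (Metric.sphere (0 : E (Ix P Q)) 1) →
  (∀ x, ‖x‖ = 1 → 0 < lam x) → (∀ x, ‖x‖ = 1 → lam (-x) = lam x) →
  ContinuousOn (avg HP HQ lam) (Metric.sphere (0 : E (Ix P Q)) 1) ∧
  (∀ x, ‖x‖ = 1 → 0 < avg HP HQ lam x) ∧
  (∀ A ∈ SO P, ∀ B ∈ SO Q, ∀ x, ‖x‖ = 1 → avg HP HQ lam (blk A B x) = avg HP HQ lam x) ∧
  (∀ x, ‖x‖ = 1 → avg HP HQ lam (-x) = avg HP HQ lam x)

/-- The averaged metric. -/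
def avgMetric {P Q : ℕ} (HP : HaarData P) (HQ : HaarData Q) (lam : E (Ix P Q) → ℝ)
    (g₁ : Field (Ix P Q)) : Field (Ix P Q) := fun x v w => (avg HP HQ lam x) ^ 2 * g₁ x v w

def claimBM : Prop := ∀ (P Q : ℕ), 1 ≤ P → 1 ≤ Q → ∀ (HP : HaarData P) (HQ : HaarData Q)
  (lam : E (Ix P Q) → ℝ) (g₁ : Field (Ix P Q)), IsMetric g₁ → IsInv g₁ →
  ContinuousOn lam (Metric.sphere (0 : E (Ix P Q)) 1) → (∀ x, ‖x‖ = 1 → 0 < lam x) →
  (∀ x, ‖x‖ = 1 → lam (-x) = lam x) →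
  IsMetric (avgMetric HP HQ lam g₁) ∧ IsInv (avgMetric HP HQ lam g₁)

/-- Lengths for the averaged metric are averages of lengths. -/
def claimBL : Prop := ∀ (P Q : ℕ), 1 ≤ P → 1 ≤ Q → ∀ (HP : HaarData P) (HQ : HaarData Q)
  (lam : E (Ix P Q) → ℝ) (g g₁ : Field (Ix P Q)) (L : ℝ), IsMetric g → IsMetric g₁ → IsInv g₁ →
  ContinuousOn lam (Metric.sphere (0 : E (Ix P Q)) 1) → (∀ x, ‖x‖ = 1 → 0 < lam x) →
  (∀ x v w : E (Ix P Q), ‖x‖ = 1 → inner ℝ x v = 0 → inner ℝ x w = 0 →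
    g x v w = (lam x) ^ 2 * g₁ x v w) →
  (∀ (x : E (Ix P Q)) (c : ℝ → E (Ix P Q)), ‖x‖ = 1 → IsCurve c x (-x) → L ≤ length g c) →
  ∀ (x : E (Ix P Q)) (c : ℝ → E (Ix P Q)), ‖x‖ = 1 → IsCurve c x (-x) →
    L ≤ length (avgMetric HP HQ lam g₁) c

/-- Scaling of the volume density. -/
def claimBD1 : Prop := ∀ (ι : Type) [Fintype ι] [DecidableEq ι] (g g' : Field ι) (x : E ι)
  (r : ℝ), IsMetric g → IsMetric g' → ‖x‖ = 1 → 0 < r →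
  (∀ v w : E ι, inner ℝ x v = 0 → inner ℝ x w = 0 → g' x v w = r ^ 2 * g x v w) →
  volDensity g' x = r ^ (Fintype.card ι - 1) * volDensity g x

/-- Invariance of the volume density. -/
def claimBD2 : Prop := ∀ (P Q : ℕ) (g : Field (Ix P Q)), IsMetric g → IsInv g →
  ∀ A ∈ SO P, ∀ B ∈ SO Q, ∀ x, ‖x‖ = 1 → volDensity g (blk A B x) = volDensity g x

/-- Continuity of the volume density. -/
def claimBD3 : Prop := ∀ (ι : Type) [Fintype ι] [DecidableEq ι] (g : Field ι), IsMetric g →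
  ContinuousOn (volDensity g) (Metric.sphere (0 : E ι) 1)

/-- Gaussian integral in spherical coordinates. -/
def claimV1a : Prop := ∀ (ι : Type) [Fintype ι] [Nonempty ι], ∃ κ : ℝ, 0 < κ ∧
  ∀ F : E ι → ℝ, ContinuousOn F (Metric.sphere (0 : E ι) 1) →
    ∫ x : E ι, F (‖x‖⁻¹ • x) * Real.exp (-‖x‖ ^ 2) =
      κ * ∫ x : Metric.sphere (0 : E ι) 1, F x ∂((volume : Measure (E ι)).toSphere)

/-- Invariance of the measure of the sphere. -/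
def claimBS : Prop := ∀ (P Q : ℕ), 1 ≤ P → 1 ≤ Q → ∀ A ∈ SO P, ∀ B ∈ SO Q,
  ∀ F : E (Ix P Q) → ℝ, ContinuousOn F (Metric.sphere (0 : E (Ix P Q)) 1) →
  ∫ x : Metric.sphere (0 : E (Ix P Q)) 1, F (blk A B x)
      ∂((volume : Measure (E (Ix P Q))).toSphere) =
    ∫ x : Metric.sphere (0 : E (Ix P Q)) 1, F x ∂((volume : Measure (E (Ix P Q))).toSphere)

/-- Volume of the averaged metric. -/
def claimBV : Prop := ∀ (P Q : ℕ), 1 ≤ P → 1 ≤ Q → ∀ (HP : HaarData P) (HQ : HaarData Q)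
  (lam : E (Ix P Q) → ℝ) (g g₁ : Field (Ix P Q)), IsMetric g → IsMetric g₁ → IsInv g₁ →
  ContinuousOn lam (Metric.sphere (0 : E (Ix P Q)) 1) → (∀ x, ‖x‖ = 1 → 0 < lam x) →
  (∀ x, ‖x‖ = 1 → lam (-x) = lam x) →
  (∀ x v w : E (Ix P Q), ‖x‖ = 1 → inner ℝ x v = 0 → inner ℝ x w = 0 →
    g x v w = (lam x) ^ 2 * g₁ x v w) →
  vol (avgMetric HP HQ lam g₁) ≤ vol g

/-! ### Part S: restriction to the great 3-sphere of the slice -/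

/-- The coordinates of `emb`. -/
def embC {P Q : ℕ} (x : RP3.E) : Ix P Q → ℝ :=
  Sum.elim (fun i => if i.val = 0 then x 0 else if i.val = 1 then x 1 else 0)
    (fun j => if j.val = 0 then x 2 else if j.val = 1 then x 3 else 0)

/-- Embedding of R^4 as the span of the first two vectors of each block. -/
def emb {P Q : ℕ} (x : RP3.E) : E (Ix P Q) := WithLp.toLp 2 (embC x)

/-- The restricted metric. -/
def res {P Q : ℕ} (g : Field (Ix P Q)) : RP3.E → RP3.E → RP3.E → ℝ :=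
  fun x v w => g (emb x) (emb v) (emb w)

/-- The same as a field of continuous forms. -/
def rf {P Q : ℕ} (g : Field (Ix P Q)) : Toric.Form := RP3.toForm (res g)

def claimS0 : Prop := ∀ (P Q : ℕ), 2 ≤ P → 2 ≤ Q → ∀ (x y : RP3.E) (t : ℝ),
  (emb (x + y) : E (Ix P Q)) = emb x + emb y ∧ (emb (t • x) : E (Ix P Q)) = t • emb x ∧
  (emb (-x) : E (Ix P Q)) = -emb x ∧
  inner ℝ (emb x : E (Ix P Q)) (emb y) = inner ℝ x y ∧ ‖(emb x : E (Ix P Q))‖ = ‖x‖ ∧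
  Continuous (emb : RP3.E → E (Ix P Q))

def claimS1 : Prop := ∀ (P Q : ℕ), 2 ≤ P → 2 ≤ Q → ∀ g : Field (Ix P Q), IsMetric g →
  IsInv g → RP3.IsMetric (res g) ∧ RP3.IsToric (res g)

def claimS2 : Prop := ∀ (P Q : ℕ), 2 ≤ P → 2 ≤ Q → ∀ (g : Field (Ix P Q)) (L : ℝ),
  IsMetric g →
  (∀ (x : E (Ix P Q)) (c : ℝ → E (Ix P Q)), ‖x‖ = 1 → IsCurve c x (-x) → L ≤ length g c) →
  ∀ (x : RP3.E) (c : ℝ → RP3.E), ‖x‖ = 1 → RP3.IsCurve c x (-x) →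
    L ≤ RP3.length (res g) c

/-- No cross terms when one of the blocks has dimension at least three. -/
def claimS3 : Prop := ∀ (P Q : ℕ), 2 ≤ P → 2 ≤ Q → (3 ≤ P ∨ 3 ≤ Q) →
  ∀ g : Field (Ix P Q), IsMetric g → IsInv g → ∀ s : ℝ, Toric.mG12 (rf g) s = 0

def claimS4 : Prop := ∀ f : Toric.Form, Toric.IsMetric f → ∃ M : ℝ, 0 < M ∧
  ∀ s : ℝ, Toric.mG11 f s ≤ M ∧ Toric.mG22 f s ≤ M

/-! ### Part V: volumes -/

/-- Euclidean norms of the two blocks. -/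
def n1 {P Q : ℕ} (x : E (Ix P Q)) : ℝ := Real.sqrt (∑ i : Fin P, x (Sum.inl i) ^ 2)
def n2 {P Q : ℕ} (x : E (Ix P Q)) : ℝ := Real.sqrt (∑ j : Fin Q, x (Sum.inr j) ^ 2)

def claimV1b : Prop := ∀ (P Q : ℕ), 1 ≤ P → 1 ≤ Q → ∃ κ : ℝ, 0 < κ ∧
  ∀ Φ : ℝ → ℝ, ContinuousOn Φ (Icc 0 (Real.pi / 2)) →
  ∫ x : E (Ix P Q), Φ (Real.arctan (n2 x / n1 x)) * Real.exp (-‖x‖ ^ 2) =
    κ * ∫ z in (Ioi (0 : ℝ) ×ˢ Ioi (0 : ℝ)), Φ (Real.arctan (z.2 / z.1)) *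
      (z.1 ^ (P - 1) * z.2 ^ (Q - 1) * Real.exp (-(z.1 ^ 2 + z.2 ^ 2)))

def claimV1c : Prop := ∀ m k : ℕ, ∃ κ : ℝ, 0 < κ ∧
  ∀ Φ : ℝ → ℝ, ContinuousOn Φ (Icc 0 (Real.pi / 2)) →
  ∫ z in (Ioi (0 : ℝ) ×ˢ Ioi (0 : ℝ)), Φ (Real.arctan (z.2 / z.1)) *
      (z.1 ^ m * z.2 ^ k * Real.exp (-(z.1 ^ 2 + z.2 ^ 2))) =
    κ * ∫ s in (0 : ℝ)..(Real.pi / 2), Φ s * (Real.cos s ^ m * Real.sin s ^ k)

/-- A unit vector is in the orbit of a point of the slice. -/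
def claimV1d : Prop := ∀ (P Q : ℕ), 2 ≤ P → 2 ≤ Q → ∀ x : E (Ix P Q), 0 < n1 x →
  ∃ A ∈ SO P, ∃ B ∈ SO Q,
    blk A B (‖x‖⁻¹ • x) = emb (Toric.pt (Real.arctan (n2 x / n1 x)))

/-- Integration of invariant functions over the sphere. -/
def claimV1 : Prop := ∀ (P Q : ℕ), 2 ≤ P → 2 ≤ Q → ∃ c : ℝ, 0 < c ∧
  ∀ F : E (Ix P Q) → ℝ, ContinuousOn F (Metric.sphere (0 : E (Ix P Q)) 1) →
  (∀ A ∈ SO P, ∀ B ∈ SO Q, ∀ x, ‖x‖ = 1 → F (blk A B x) = F x) →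
  ∫ x : Metric.sphere (0 : E (Ix P Q)) 1, F x ∂((volume : Measure (E (Ix P Q))).toSphere) =
    c * ∫ s in (0 : ℝ)..(Real.pi / 2),
      F (emb (Toric.pt s)) * (Real.cos s ^ (P - 1) * Real.sin s ^ (Q - 1))

/-- The unit vectors number `1` of the two blocks. -/
def e1 : RP3.E := RP3.ei 1
def e3 : RP3.E := RP3.ei 3

/-- The volume density on the slice. -/
def claimV2a : Prop := ∀ (P Q : ℕ), 2 ≤ P → 2 ≤ Q → ∀ g : Field (Ix P Q), IsMetric g →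
  IsInv g → ∀ s ∈ Ioo 0 (Real.pi / 2),
  volDensity g (emb (Toric.pt s)) = RP3.volDensity (res g) (Toric.pt s) *
    (Real.sqrt (res g (Toric.pt s) e1 e1) ^ (P - 2) *
      Real.sqrt (res g (Toric.pt s) e3 e3) ^ (Q - 2))

def claimV2 : Prop := ∀ (P Q : ℕ), 2 ≤ P → 2 ≤ Q → ∀ g : Field (Ix P Q), IsMetric g →
  IsInv g → ∀ s ∈ Ioo 0 (Real.pi / 2),
  volDensity g (emb (Toric.pt s)) * (Real.cos s ^ (P - 1) * Real.sin s ^ (Q - 1)) =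
    Toric.ma (rf g) s *
      Real.sqrt (Toric.Dt (Toric.mG11 (rf g)) (Toric.mG12 (rf g)) (Toric.mG22 (rf g)) s) *
      (Real.sqrt (Toric.mG11 (rf g) s) ^ (P - 2) * Real.sqrt (Toric.mG22 (rf g) s) ^ (Q - 2))

/-- Integral of `cos^m sin^k`. -/
def Wc (m k : ℕ) : ℝ := ∫ s in (0 : ℝ)..(Real.pi / 2), Real.cos s ^ m * Real.sin s ^ k

/-- The volume of an invariant metric and of the round metric. -/
def claimV3 : Prop := ∀ (P Q : ℕ), 2 ≤ P → 2 ≤ Q → ∃ c : ℝ, 0 < c ∧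
  (∀ g : Field (Ix P Q), IsMetric g → IsInv g →
    vol g = c * ∫ s in (0 : ℝ)..(Real.pi / 2), Toric.ma (rf g) s *
      Real.sqrt (Toric.Dt (Toric.mG11 (rf g)) (Toric.mG12 (rf g)) (Toric.mG22 (rf g)) s) *
      (Real.sqrt (Toric.mG11 (rf g) s) ^ (P - 2) *
        Real.sqrt (Toric.mG22 (rf g) s) ^ (Q - 2))) ∧
  vol (round : Field (Ix P Q)) = c * Wc (P - 1) (Q - 1)

/-! ### Part E: integration over the momenta -/

def Kc (m k : ℕ) : ℝ := ∫ z in (Ioi (0 : ℝ) ×ˢ Ioi (0 : ℝ)),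
  Real.sqrt (1 - (z.1 ^ 2 + z.2 ^ 2)) * (z.1 ^ m * z.2 ^ k)

def Dc (m k : ℕ) : ℝ := ∫ z in {z : ℝ × ℝ | 0 < z.1 ∧ 0 < z.2 ∧ z.1 + z.2 < 1},
  (1 - (z.1 + z.2)) * (z.1 ^ m * z.2 ^ k)

def claimE1w : Prop := ∀ (m k : ℕ) (A C : ℝ), 0 < A → 0 < C →
  IntegrableOn (fun z : ℝ × ℝ => Real.sqrt (1 - (z.1 ^ 2 / A + z.2 ^ 2 / C)) *
    (z.1 ^ m * z.2 ^ k)) (Ioi 0 ×ˢ Ioi 0) ∧
  ∫ z in (Ioi (0 : ℝ) ×ˢ Ioi (0 : ℝ)), Real.sqrt (1 - (z.1 ^ 2 / A + z.2 ^ 2 / C)) *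
    (z.1 ^ m * z.2 ^ k) = Kc m k * (Real.sqrt A ^ (m + 1) * Real.sqrt C ^ (k + 1))

def claimE2w : Prop := ∀ (m k : ℕ) (L : ℝ), 0 < L →
  ∫ z in {z : ℝ × ℝ | 0 < z.1 ∧ 0 < z.2 ∧ Real.pi * (z.1 + z.2) < L},
    (L - Real.pi * (z.1 + z.2)) * (z.1 ^ m * z.2 ^ k) =
  L ^ (m + k + 3) / Real.pi ^ (m + k + 2) * Dc m k

def claimE3w : Prop := ∀ (m k : ℕ) (σ L M : ℝ) (a G11 G12 G22 : ℝ → ℝ), 0 < L →
  Toric.CoreData σ a G11 G12 G22 → Toric.CoreIneq σ L a G11 G12 G22 →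
  (∀ s ∈ Ioo 0 σ, G12 s = 0) → (∀ s ∈ Ioo 0 σ, G11 s ≤ M ∧ G22 s ≤ M) →
  L ^ (m + k + 3) / Real.pi ^ (m + k + 2) * Dc m k ≤
    2 * Kc m k * ∫ s in (0 : ℝ)..σ, a s * Real.sqrt (Toric.Dt G11 G12 G22 s) *
      (Real.sqrt (G11 s) ^ m * Real.sqrt (G22 s) ^ k)

def claimE4a : Prop := ∀ m k : ℕ,
  Dc m k = (m.factorial : ℝ) * k.factorial / ((m + k + 3).factorial : ℝ)

def claimE4b : Prop := ∀ m k : ℕ, Kc m k = Wc 2 (m + k + 1) * Wc m k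

def claimE4c : Prop := ∀ m k : ℕ,
  Real.pi * ((m.factorial : ℝ) * k.factorial / ((m + k + 3).factorial : ℝ)) =
    2 * (Wc 2 (m + k + 1) * Wc m k) * Wc (m + 1) (k + 1)

/-- Positivity. -/
def claimE4d : Prop := ∀ m k : ℕ, 0 < Wc m k

/-! ### The theorem -/

def claimMain : Prop := ∀ (P Q : ℕ), 2 ≤ P → 2 ≤ Q → ∀ g : Field (Ix P Q), IsMetric g →
  ConformallyInv g → ∃ (γ : ℝ → E (Ix P Q)) (l : ℝ), IsClosedGeodesic g γ l ∧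
    (l / Real.pi) ^ (P + Q - 1) ≤ vol g / vol (round : Field (Ix P Q))

end Pool.Agent.Work.MP_02f065_gt.RPn
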