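import Pool.Agent.Work.MP_02f065_gt.RPn.Stmts

/-!
Statements of the items for MP_02f065_gt in the case P = 1: SO(Q)-invariant metrics on RP^Q
(rotationally symmetric metrics), n = Q >= 2. Each item `X` is to be proved as
`theorem itemX : claimX` (hypotheses that are other claims may be used).
-/

open MeasureTheory Set Filter Topology

noncomputable section

namespace Pool.Agent.Work.MP_02f065_gt.RPn

/-! ### The great 2-sphere in polar coordinates -/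

/-- The point with polar coordinates `(s, θ)`: `(cos s; sin s cos θ, sin s sin θ, 0, ...)`. -/
def w {Q : ℕ} (s θ : ℝ) : E (Ix 1 Q) := WithLp.toLp 2
  (Sum.elim (fun _ => Real.cos s) (fun j => if j.val = 0 then Real.sin s * Real.cos θ
    else if j.val = 1 then Real.sin s * Real.sin θ else 0))

/-- The derivative of `w` with respect to `s`. -/
def ws {Q : ℕ} (s θ : ℝ) : E (Ix 1 Q) := WithLp.toLp 2
  (Sum.elim (fun _ => -Real.sin s) (fun j => if j.val = 0 then Real.cos s * Real.cos θ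
    else if j.val = 1 then Real.cos s * Real.sin θ else 0))

/-- The derivative of `w` with respect to `θ`. -/
def wt {Q : ℕ} (s θ : ℝ) : E (Ix 1 Q) := WithLp.toLp 2
  (Sum.elim (fun _ => 0) (fun j => if j.val = 0 then -(Real.sin s * Real.sin θ)
    else if j.val = 1 then Real.sin s * Real.cos θ else 0))

def cA {Q : ℕ} (g : Field (Ix 1 Q)) (s : ℝ) : ℝ := g (w s 0) (ws s 0) (ws s 0)
def cB {Q : ℕ} (g : Field (Ix 1 Q)) (s : ℝ) : ℝ := g (w s 0) (ws s 0) (wt s 0)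
def cG {Q : ℕ} (g : Field (Ix 1 Q)) (s : ℝ) : ℝ := g (w s 0) (wt s 0) (wt s 0)
def ca {Q : ℕ} (g : Field (Ix 1 Q)) (s : ℝ) : ℝ := Real.sqrt (cA g s - cB g s ^ 2 / cG g s)

/-- Elementary properties of the polar coordinates. -/
def claimZ0 : Prop := ∀ Q : ℕ, 2 ≤ Q →
  (∀ s θ : ℝ, ‖(w s θ : E (Ix 1 Q))‖ = 1 ∧ inner ℝ (w s θ : E (Ix 1 Q)) (ws s θ) = 0 ∧
    inner ℝ (w s θ : E (Ix 1 Q)) (wt s θ) = 0 ∧ ‖(ws s θ : E (Ix 1 Q))‖ = 1 ∧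
    inner ℝ (ws s θ : E (Ix 1 Q)) (wt s θ) = 0 ∧ ‖(wt s θ : E (Ix 1 Q))‖ ^ 2 = Real.sin s ^ 2 ∧
    (w (Real.pi - s) θ : E (Ix 1 Q)) = -w s (θ + Real.pi) ∧
    (ws (Real.pi - s) θ : E (Ix 1 Q)) = ws s (θ + Real.pi) ∧
    (wt (Real.pi - s) θ : E (Ix 1 Q)) = -wt s (θ + Real.pi)) ∧
  ∀ θ : ℝ, ∃ B ∈ SO Q, ∀ s φ : ℝ, blk 1 B (w s φ : E (Ix 1 Q)) = w s (φ + θ) ∧
    blk 1 B (ws s φ : E (Ix 1 Q)) = ws s (φ + θ) ∧ blk 1 B (wt s φ : E (Ix 1 Q)) = wt s (φ + θ)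

/-- Invariance of the coefficients. -/
def claimZ1 : Prop := ∀ Q : ℕ, 2 ≤ Q → ∀ g : Field (Ix 1 Q), IsMetric g → IsInv g →
  (∀ s θ : ℝ, g (w s θ) (ws s θ) (ws s θ) = cA g s ∧ g (w s θ) (ws s θ) (wt s θ) = cB g s ∧
    g (w s θ) (wt s θ) (wt s θ) = cG g s) ∧
  ∀ s : ℝ, cA g (Real.pi - s) = cA g s ∧ cB g (Real.pi - s) = -cB g s ∧
    cG g (Real.pi - s) = cG g s

/-- Continuity and positivity of the coefficients. -/
def claimZ2a : Prop := ∀ Q : ℕ, 2 ≤ Q → ∀ g : Field (Ix 1 Q), IsMetric g →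
  Continuous (cA g) ∧ Continuous (cB g) ∧ Continuous (cG g) ∧
  ∀ s ∈ Ioo 0 Real.pi, 0 < cG g s ∧ 0 < cA g s - cB g s ^ 2 / cG g s

/-- The data of the one-dimensional problem. -/
structure CoreData1 (σ : ℝ) (a G : ℝ → ℝ) : Prop where
  σpos : 0 < σ
  ca : ContinuousOn a (Ioc 0 σ)
  cG : ContinuousOn G (Icc 0 σ)
  apos : ∀ s ∈ Ioc 0 σ, 0 < a s
  pos : ∀ s ∈ Ioc 0 σ, 0 < G s
  int : IntervalIntegrable a volume 0 σ
  zero : G 0 = 0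

def claimZ2 : Prop := ∀ Q : ℕ, 2 ≤ Q → ∀ g : Field (Ix 1 Q), IsMetric g →
  CoreData1 (Real.pi / 2) (ca g) (cG g)

/-- Every symmetric path which turns by `π` has length at least `L`. -/
def PathHyp1 (σ L : ℝ) (a G : ℝ → ℝ) : Prop :=
  ∀ s1 : ℝ, 0 < s1 → s1 < σ → ∀ y : ℝ → ℝ, ContinuousOn y (Icc s1 σ) →
    2 * (∫ s in s1..σ, y s) = Real.pi →
    L ≤ 2 * ∫ s in s1..σ, Real.sqrt (a s ^ 2 + G s * y s ^ 2)

def claimZ3 : Prop := ∀ Q : ℕ, 2 ≤ Q → ∀ (g : Field (Ix 1 Q)) (L : ℝ), IsMetric g → IsInv g →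
  (∀ (x : E (Ix 1 Q)) (c : ℝ → E (Ix 1 Q)), ‖x‖ = 1 → IsCurve c x (-x) → L ≤ length g c) →
  PathHyp1 (Real.pi / 2) L (ca g) (cG g)

/-- The equator. -/
def claimZ4 : Prop := ∀ Q : ℕ, 2 ≤ Q → ∀ (g : Field (Ix 1 Q)) (L : ℝ), IsMetric g → IsInv g →
  (∀ (x : E (Ix 1 Q)) (c : ℝ → E (Ix 1 Q)), ‖x‖ = 1 → IsCurve c x (-x) → L ≤ length g c) →
  L ≤ Real.pi * Real.sqrt (cG g (Real.pi / 2))

/-- The inequality for every momentum. -/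
def claimZ5 : Prop := ∀ (σ L : ℝ) (a G : ℝ → ℝ), CoreData1 σ a G → PathHyp1 σ L a G →
  L ≤ Real.pi * Real.sqrt (G σ) → ∀ q : ℝ, 0 < q → Real.pi * q < L →
  L ≤ Real.pi * q + 2 * ∫ s in (0 : ℝ)..σ, a s * Real.sqrt (1 - q ^ 2 / G s)

/-- Integration over the momenta. -/
def claimZ6 : Prop := ∀ (m : ℕ) (σ L : ℝ) (a G : ℝ → ℝ), 0 < L → CoreData1 σ a G →
  (∀ q : ℝ, 0 < q → Real.pi * q < L →
    L ≤ Real.pi * q + 2 * ∫ s in (0 : ℝ)..σ, a s * Real.sqrt (1 - q ^ 2 / G s)) →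
  L ^ (m + 2) / Real.pi ^ (m + 1) / ((m + 1) * (m + 2)) ≤
    2 * Wc 2 m * ∫ s in (0 : ℝ)..σ, a s * Real.sqrt (G s) ^ (m + 1)

def claimZ7 : Prop := ∀ m : ℕ,
  Real.pi / (((m : ℝ) + 1) * (m + 2)) = 2 * Wc 2 m * Wc 0 (m + 1)

/-- Integration of invariant even functions over the sphere. -/
def claimZ8 : Prop := ∀ Q : ℕ, 2 ≤ Q → ∃ c : ℝ, 0 < c ∧
  ∀ F : E (Ix 1 Q) → ℝ, ContinuousOn F (Metric.sphere (0 : E (Ix 1 Q)) 1) →
  (∀ A ∈ SO 1, ∀ B ∈ SO Q, ∀ x, ‖x‖ = 1 → F (blk A B x) = F x) →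
  (∀ x, ‖x‖ = 1 → F (-x) = F x) →
  ∫ x : Metric.sphere (0 : E (Ix 1 Q)) 1, F x ∂((volume : Measure (E (Ix 1 Q))).toSphere) =
    c * ∫ s in (0 : ℝ)..(Real.pi / 2), F (w s 0) * Real.sin s ^ (Q - 1)

/-- The volume density on the slice. -/
def claimZ9 : Prop := ∀ Q : ℕ, 2 ≤ Q → ∀ g : Field (Ix 1 Q), IsMetric g → IsInv g →
  ∀ s ∈ Ioo 0 (Real.pi / 2),
  volDensity g (w s 0) * Real.sin s ^ (Q - 1) = ca g s * Real.sqrt (cG g s) ^ (Q - 1)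

/-- The volume density is even. -/
def claimZ10 : Prop := ∀ (ι : Type) [Fintype ι] [DecidableEq ι] (g : Field ι), IsMetric g →
  ∀ x : E ι, ‖x‖ = 1 → volDensity g (-x) = volDensity g x

/-- The volume of an invariant metric and of the round metric. -/
def claimZ11 : Prop := ∀ Q : ℕ, 2 ≤ Q → ∃ c : ℝ, 0 < c ∧
  (∀ g : Field (Ix 1 Q), IsMetric g → IsInv g →
    vol g = c * ∫ s in (0 : ℝ)..(Real.pi / 2), ca g s * Real.sqrt (cG g s) ^ (Q - 1)) ∧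
  vol (round : Field (Ix 1 Q)) = c * Wc 0 (Q - 1)

/-! ### The theorem -/

def claimMain1 : Prop := ∀ Q : ℕ, 2 ≤ Q → ∀ g : Field (Ix 1 Q), IsMetric g →
  ConformallyInv g → ∃ (γ : ℝ → E (Ix 1 Q)) (l : ℝ), IsClosedGeodesic g γ l ∧
    (l / Real.pi) ^ (1 + Q - 1) ≤ vol g / vol (round : Field (Ix 1 Q))

end Pool.Agent.Work.MP_02f065_gt.RPn
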