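import Mathlib

/-!
MP_02f065_gt (closed geodesics of length at most pi on real projective spaces).
Definitions for the theorem on metrics of RP^n, n = P + Q - 1, which are conformal to
SO(P) x SO(Q)-invariant metrics. A metric on RP^n is an antipodally invariant metric on the unit
sphere S^n of the Euclidean space with coordinates indexed by a finite type `ι` (n + 1 elements).
-/

open MeasureTheory Set

noncomputable section

namespace Pool.Agent.Work.MP_02f065_gt.RPn

/-- Euclidean space with coordinates indexed by `ι`; its unit sphere is S^n. -/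
abbrev E (ι : Type) : Type := EuclideanSpace ℝ ι

/-- A field of bilinear forms: `g x v w`. -/
abbrev Field (ι : Type) : Type := E ι → E ι → E ι → ℝ

variable {ι : Type} [Fintype ι]

/-- `g x v w` is a (continuous) Riemannian metric on RP^n = S^n/±1, lifted to S^n: a field of
symmetric bilinear forms on `E ι`, continuous in the point `x` of S^n, positive definite on the
tangent space of S^n at `x` (the vectors orthogonal to `x`) and invariant under the antipodal
map. Only the values at unit vectors `x`, on vectors orthogonal to `x`, matter. -/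
structure IsMetric (g : Field ι) : Prop where
  add : ∀ x v v' w : E ι, g x (v + v') w = g x v w + g x v' w
  smul : ∀ (x v w : E ι) (r : ℝ), g x (r • v) w = r * g x v w
  symm : ∀ x v w : E ι, g x v w = g x w v
  cont : ∀ v w : E ι, ContinuousOn (fun x => g x v w) (Metric.sphere (0 : E ι) 1)
  pos : ∀ x v : E ι, ‖x‖ = 1 → inner ℝ x v = 0 → v ≠ 0 → 0 < g x v v
  even : ∀ x v w : E ι, ‖x‖ = 1 → inner ℝ x v = 0 → inner ℝ x w = 0 → g (-x) v w = g x v w

/-- The round metric. -/
def round (_ v w : E ι) : ℝ := inner ℝ v w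

/-- Orthogonal projection to the tangent space at `x`. -/
def tang (x v : E ι) : E ι := v - (inner ℝ x v) • x

/-- The standard basis. -/
def ei [DecidableEq ι] (i : ι) : E ι := EuclideanSpace.single i 1

/-- The matrix of `g` on the tangent space at `x`, completed by the unit normal vector `x`. -/
def gram [DecidableEq ι] (g : Field ι) (x : E ι) (i j : ι) : ℝ :=
  g x (tang x (ei i)) (tang x (ei j)) + x i * x j

/-- The volume density of `g` with respect to the round metric of S^n at `x`: the square root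
of the determinant of `g` on the tangent space. -/
def volDensity [DecidableEq ι] (g : Field ι) (x : E ι) : ℝ :=
  Real.sqrt (Matrix.det (Matrix.of (gram g x)))

/-- The volume of (RP^n, g): half of the volume of (S^n, g). -/
def vol [DecidableEq ι] (g : Field ι) : ℝ :=
  (1 / 2) * ∫ x : Metric.sphere (0 : E ι) 1, volDensity g x ∂((volume : Measure (E ι)).toSphere)

/-- `c` is a C^1 curve in S^n from `x` to `y` (parametrised by [0,1]). -/
structure IsCurve (c : ℝ → E ι) (x y : E ι) : Prop where
  smooth : ContDiff ℝ 1 c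
  sphere : ∀ t, ‖c t‖ = 1
  left : c 0 = x
  right : c 1 = y

/-- Length of a C^1 curve. -/
def length (g : Field ι) (c : ℝ → E ι) : ℝ :=
  ∫ t in (0 : ℝ)..1, Real.sqrt (g (c t) (deriv c t) (deriv c t))

/-- Riemannian distance in (S^n, g): infimum of the lengths of the C^1 curves. -/
def rdist (g : Field ι) (x y : E ι) : ℝ := sInf {l | ∃ c, IsCurve c x y ∧ length g c = l}

/-- Riemannian distance in (RP^n, g) of the points ±x and ±y. -/
def rpDist (g : Field ι) (x y : E ι) : ℝ := min (rdist g x y) (rdist g x (-y))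

/-- `γ` is (the continuous lift to S^n of) a unit speed closed geodesic of (RP^n, g), one
period of which has length `l`: it is locally distance minimising in RP^n and
`±γ(t + l) = ±γ(t)`. -/
structure IsClosedGeodesic (g : Field ι) (γ : ℝ → E ι) (l : ℝ) : Prop where
  cont : Continuous γ
  sphere : ∀ t, ‖γ t‖ = 1
  geodesic : ∃ ε > 0, ∀ s t, |s - t| ≤ ε → rpDist g (γ s) (γ t) = |s - t|
  pos : 0 < l
  closed : (∀ t, γ (t + l) = γ t) ∨ (∀ t, γ (t + l) = -γ t)

/-- The index set of the coordinates of R^P x R^Q. -/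
abbrev Ix (P Q : ℕ) : Type := Fin P ⊕ Fin Q

/-- The coordinates of `blk`. -/
def blkC {P Q : ℕ} (A : Matrix (Fin P) (Fin P) ℝ) (B : Matrix (Fin Q) (Fin Q) ℝ)
    (x : E (Ix P Q)) : Ix P Q → ℝ :=
  Sum.elim (A.mulVec fun i => x (Sum.inl i)) (B.mulVec fun j => x (Sum.inr j))

/-- The action of a pair of matrices on R^P x R^Q. -/
def blk {P Q : ℕ} (A : Matrix (Fin P) (Fin P) ℝ) (B : Matrix (Fin Q) (Fin Q) ℝ)
    (x : E (Ix P Q)) : E (Ix P Q) := WithLp.toLp 2 (blkC A B x)

/-- `g` is invariant under SO(P) x SO(Q). -/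
def IsInv {P Q : ℕ} (g : Field (Ix P Q)) : Prop :=
  ∀ A ∈ Matrix.specialOrthogonalGroup (Fin P) ℝ, ∀ B ∈ Matrix.specialOrthogonalGroup (Fin Q) ℝ,
    ∀ x v w : E (Ix P Q), ‖x‖ = 1 → inner ℝ x v = 0 → inner ℝ x w = 0 →
      g (blk A B x) (blk A B v) (blk A B w) = g x v w

/-- `g` is conformal to an SO(P) x SO(Q)-invariant metric. -/
def ConformallyInv {P Q : ℕ} (g : Field (Ix P Q)) : Prop :=
  ∃ (g₁ : Field (Ix P Q)) (u : E (Ix P Q) → ℝ), IsMetric g₁ ∧ IsInv g₁ ∧
    ContinuousOn u (Metric.sphere (0 : E (Ix P Q)) 1) ∧ (∀ x, ‖x‖ = 1 → 0 < u x) ∧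
    ∀ x v w : E (Ix P Q), ‖x‖ = 1 → inner ℝ x v = 0 → inner ℝ x w = 0 →
      g x v w = u x * g₁ x v w

end Pool.Agent.Work.MP_02f065_gt.RPn
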