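import Pool.Agent.Work.MP_02f065_gt.RPn.Stmts

/-!
MP_02f065_gt (all dimensions), item A5: shortest paths exist.
-/

open MeasureTheory Set Filter Topology

noncomputable section

namespace Pool.Agent.Work.MP_02f065_gt.RPn

namespace iA5

variable {ι : Type} [Fintype ι]

/-- The speed of a curve. -/
def speed (g : Field ι) (c : ℝ → E ι) (t : ℝ) : ℝ :=
  Real.sqrt (g (c t) (deriv c t) (deriv c t))

lemma speed_nonneg (g : Field ι) (c : ℝ → E ι) (t : ℝ) : 0 ≤ speed g c t := Real.sqrt_nonneg _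

lemma sum_ei [DecidableEq ι] (v : E ι) : v = ∑ i : ι, v i • (ei i : E ι) := by
  ext k
  simp [ei, Pi.single_apply]

lemma gexp [DecidableEq ι] {g : Field ι} (hg : IsMetric g) (x v w : E ι) :
    g x v w = ∑ i : ι, ∑ j : ι, v i * (w j * g x (ei i) (ei j)) := by
  have h0 : ∀ w, g x 0 w = 0 := by
    intro w
    have := hg.smul x 0 w 0
    simpa using this
  have hsum : ∀ (s : Finset ι) (f : ι → E ι) (w : E ι),
      g x (∑ i ∈ s, f i) w = ∑ i ∈ s, g x (f i) w := by
    intro s f w
    induction s using Finset.induction_on with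
    | empty => simp [h0]
    | insert a s ha ih => rw [Finset.sum_insert ha, Finset.sum_insert ha, hg.add, ih]
  conv_lhs => rw [sum_ei v]
  rw [hsum]
  refine Finset.sum_congr rfl fun i _ => ?_
  rw [hg.smul, hg.symm, ← Finset.mul_sum]
  congr 1
  conv_lhs => rw [sum_ei w]
  rw [hsum]
  refine Finset.sum_congr rfl fun j _ => ?_
  rw [hg.smul, hg.symm]

lemma continuous_speed {g : Field ι} {c : ℝ → E ι} {x y : E ι} (hg : IsMetric g)
    (hc : IsCurve c x y) : Continuous (speed g c) := by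
  classical
  have h1 : Continuous c := hc.smooth.continuous
  have h2 : Continuous (deriv c) := hc.smooth.continuous_deriv le_rfl
  have hcs : ∀ t, c t ∈ Metric.sphere (0 : E ι) 1 := fun t => by
    simp [hc.sphere t]
  have h3 : ∀ i j : ι, Continuous (fun t => g (c t) (ei i) (ei j)) := fun i j =>
    (hg.cont (ei i) (ei j)).comp_continuous h1 hcs
  have h4 : ∀ i : ι, Continuous (fun t => (deriv c t) i) := fun i =>
    (EuclideanSpace.proj (𝕜 := ℝ) i : E ι →L[ℝ] ℝ).continuous.comp h2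
  have h5 : speed g c = fun t => Real.sqrt (∑ i : ι, ∑ j : ι,
      (deriv c t) i * ((deriv c t) j * g (c t) (ei i) (ei j))) := by
    funext t
    unfold speed
    rw [gexp hg (c t) (deriv c t) (deriv c t)]
  rw [h5]
  exact Real.continuous_sqrt.comp (continuous_finsetSum _ fun i _ =>
    continuous_finsetSum _ fun j _ => (h4 i).mul ((h4 j).mul (h3 i j)))

/-- Length of the initial piece. -/
def lam (g : Field ι) (c : ℝ → E ι) (t : ℝ) : ℝ := ∫ u in (0 : ℝ)..t, speed g c u

lemma lam_sub {g : Field ι} {c : ℝ → E ι} {x y : E ι} (hg : IsMetric g)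
    (hc : IsCurve c x y) (a b : ℝ) :
    lam g c b - lam g c a = ∫ u in a..b, speed g c u := by
  unfold lam
  have hi : ∀ a b, IntervalIntegrable (speed g c) volume a b :=
    fun a b => (continuous_speed hg hc).intervalIntegrable a b
  rw [intervalIntegral.integral_interval_sub_left (hi _ _) (hi _ _)]

lemma lam_mono {g : Field ι} {c : ℝ → E ι} {x y : E ι} (hg : IsMetric g)
    (hc : IsCurve c x y) {a b : ℝ} (hab : a ≤ b) : lam g c a ≤ lam g c b := by
  have h := lam_sub hg hc a b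
  have h2 : 0 ≤ ∫ u in a..b, speed g c u :=
    intervalIntegral.integral_nonneg hab (fun u _ => speed_nonneg g c u)
  linarith

lemma lam_cont {g : Field ι} {c : ℝ → E ι} {x y : E ι} (hg : IsMetric g)
    (hc : IsCurve c x y) : Continuous (lam g c) :=
  intervalIntegral.continuous_primitive
    (fun a b => (continuous_speed hg hc).intervalIntegrable a b) 0

/-- Choice of parameters. -/
lemma exists_param {g : Field ι} {c : ℝ → E ι} {x y : E ι} (hg : IsMetric g)
    (hc : IsCurve c x y) {D : ℝ} (hD : 0 < D) :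
    ∃ τ : ℝ → ℝ, ∀ s ∈ Icc 0 D, τ s ∈ Icc (0 : ℝ) 1 ∧
      lam g c (τ s) = s * length g c / D ∧ (s = 0 → τ s = 0) ∧ (s = D → τ s = 1) := by
  have h0 : lam g c 0 = 0 := by simp [lam]
  have h1 : lam g c 1 = length g c := rfl
  have hl : 0 ≤ length g c := by
    rw [← h1, ← h0]; exact lam_mono hg hc zero_le_one
  have key : ∀ s : ℝ, ∃ t : ℝ, s ∈ Icc 0 D → t ∈ Icc (0 : ℝ) 1 ∧
      lam g c t = s * length g c / D ∧ (s = 0 → t = 0) ∧ (s = D → t = 1) := by
    intro s
    by_cases hs0 : s = 0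
    · refine ⟨0, fun _ => ⟨⟨le_rfl, zero_le_one⟩, ?_, fun _ => rfl, fun h => ?_⟩⟩
      · rw [h0, hs0]; simp
      · exact absurd (hs0.symm.trans h) hD.ne
    by_cases hsD : s = D
    · refine ⟨1, fun _ => ⟨⟨zero_le_one, le_rfl⟩, ?_, fun h => absurd h hs0, fun _ => rfl⟩⟩
      rw [h1, hsD]; field_simp
    by_cases hs : s ∈ Icc 0 D
    · have hmem : s * length g c / D ∈ Icc (lam g c 0) (lam g c 1) := by
        rw [h0, h1]
        constructor
        · exact div_nonneg (mul_nonneg hs.1 hl) hD.le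
        · rw [div_le_iff₀ hD, mul_comm]
          exact mul_le_mul_of_nonneg_left hs.2 hl
      obtain ⟨t, ht, hlt⟩ := intermediate_value_Icc zero_le_one
        (lam_cont hg hc).continuousOn hmem
      exact ⟨t, fun _ => ⟨ht, hlt, fun h => absurd h hs0, fun h => absurd h hsD⟩⟩
    · exact ⟨0, fun h => absurd h hs⟩
  choose τ hτ using key
  exact ⟨τ, fun s hs => hτ s hs⟩

/-- Pieces of a curve. -/
lemma piece [Nontrivial ι] (hA2 : claimA2) (hA4b : claimA4b) {g : Field ι} {c : ℝ → E ι} {x y : E ι}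
    (hg : IsMetric g) (hc : IsCurve c x y) {a b : ℝ} (hab : a < b) :
    rdist g (c a) (c b) ≤ lam g c b - lam g c a := by
  have harc : IsArc c (deriv c) a b := by
    refine ⟨fun t _ => ?_, ?_, fun t _ => hc.sphere t⟩
    · exact ((hc.smooth.differentiable one_ne_zero).differentiableAt.hasDerivAt).hasDerivWithinAt
    · exact (hc.smooth.continuous_deriv le_rfl).continuousOn
  obtain ⟨k, hk, hkl⟩ := hA2 ι g c (deriv c) a b hg hab harc
  have h := (hA4b ι g hg).1 _ _ k hk
  rw [hkl] at h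
  rw [lam_sub hg hc a b]
  exact h

end iA5

open iA5

theorem itemA5 (hA2 : claimA2) (hA4a : claimA4a) (hA4b : claimA4b) : claimA5 := by
  intro ι _ _ g x y hg hx hy
  obtain ⟨m, M, hm, hM, hb⟩ := hA4a ι g hg
  obtain ⟨hle, htri⟩ := hA4b ι g hg
  have hnn : ∀ p q : E ι, ‖p‖ = 1 → ‖q‖ = 1 → 0 ≤ rdist g p q := fun p q hp hq =>
    le_trans (mul_nonneg hm.le (norm_nonneg _)) (hb p q hp hq).2.1
  have hself : ∀ p : E ι, ‖p‖ = 1 → rdist g p p = 0 := by
    intro p hp
    have h1 := (hb p p hp hp).2.2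
    simp only [sub_self, norm_zero, mul_zero] at h1
    exact le_antisymm h1 (hnn p p hp hp)
  rcases (hnn x y hx hy).eq_or_lt with hD0 | hD
  · -- degenerate case
    have h1 := (hb x y hx hy).2.1
    rw [← hD0] at h1
    have h2 : ‖x - y‖ = 0 := by
      have h3 : ‖x - y‖ ≤ 0 := by
        by_contra h4
        push Not at h4
        have := mul_pos hm h4
        linarith
      exact le_antisymm h3 (norm_nonneg _)
    have hxy : x = y := by
      rwa [norm_eq_zero, sub_eq_zero] at h2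
    refine ⟨fun _ => x, fun _ => hx, rfl, hxy, ?_⟩
    intro s hs t ht
    rw [← hD0] at hs ht
    have hs0 : s = 0 := le_antisymm hs.2 hs.1
    have ht0 : t = 0 := le_antisymm ht.2 ht.1
    simp [hs0, ht0, hself x hx]
  set D := rdist g x y with hDdef
  -- minimising curves
  have hex : ∀ n : ℕ, ∃ c, IsCurve c x y ∧ length g c < D + 1 / ((n : ℝ) + 1) := by
    intro n
    have hne : {l | ∃ c, IsCurve c x y ∧ length g c = l}.Nonempty := by
      obtain ⟨c, hc⟩ := (hb x y hx hy).1
      exact ⟨_, c, hc, rfl⟩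
    have hlt : sInf {l | ∃ c, IsCurve c x y ∧ length g c = l} < D + 1 / ((n : ℝ) + 1) := by
      have : (0 : ℝ) < 1 / ((n : ℝ) + 1) := by positivity
      have h2 : sInf {l | ∃ c, IsCurve c x y ∧ length g c = l} = D := rfl
      linarith
    obtain ⟨l, ⟨c, hc, hcl⟩, hl⟩ := exists_lt_of_csInf_lt hne hlt
    exact ⟨c, hc, by rw [hcl]; exact hl⟩
  choose c hc hcl using hex
  have hcD : ∀ n, D ≤ length g (c n) := fun n => hle x y (c n) (hc n)
  choose τ hτ using fun n => exists_param hg (hc n) hD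
  -- the bound for the pieces
  have hpiece : ∀ n, ∀ s ∈ Icc 0 D, ∀ s' ∈ Icc 0 D, s < s' →
      rdist g (c n (τ n s)) (c n (τ n s')) ≤ (s' - s) * length g (c n) / D := by
    intro n s hs s' hs' hss
    have h1 := (hτ n s hs).2.1
    have h2 := (hτ n s' hs').2.1
    have hlpos : 0 < length g (c n) := lt_of_lt_of_le hD (hcD n)
    have hlt : lam g (c n) (τ n s) < lam g (c n) (τ n s') := by
      rw [h1, h2]
      have := mul_lt_mul_of_pos_right hss hlpos
      exact div_lt_div_of_pos_right this hD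
    have hab : τ n s < τ n s' := by
      by_contra hcon
      push Not at hcon
      have := lam_mono hg (hc n) hcon
      linarith
    have h3 := piece hA2 hA4b hg (hc n) hab
    rw [h1, h2] at h3
    calc _ ≤ _ := h3
      _ = _ := by ring
  -- the limit
  have hU : ((hyperfilter ℕ : Ultrafilter ℕ) : Filter ℕ) ≤ atTop := by
    have := hyperfilter_le_cofinite (α := ℕ)
    rwa [Nat.cofinite_eq_atTop] at this
  have hlim : ∀ s : ℝ, ∃ p : E ι, s ∈ Icc 0 D → ‖p‖ = 1 ∧
      Tendsto (fun n => c n (τ n s)) (hyperfilter ℕ : Filter ℕ) (𝓝 p) := by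
    intro s
    have hcomp : IsCompact (Metric.sphere (0 : E ι) 1) := isCompact_sphere _ _
    have hle' : ((((hyperfilter ℕ).map (fun n => c n (τ n s)) : Ultrafilter (E ι))) : Filter (E ι)) ≤
        𝓟 (Metric.sphere (0 : E ι) 1) := by
      rw [Ultrafilter.coe_map, le_principal_iff, mem_map]
      refine univ_mem' (fun n => ?_)
      simp [(hc n).sphere]
    obtain ⟨p, hp, hpl⟩ := hcomp.ultrafilter_le_nhds _ hle'
    refine ⟨p, fun _ => ⟨by simpa using hp, ?_⟩⟩
    rw [Ultrafilter.coe_map] at hpl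
    exact hpl
  choose c0 hc0 using hlim
  have hl_tendsto : Tendsto (fun n => length g (c n)) (hyperfilter ℕ : Filter ℕ) (𝓝 D) := by
    have h1 : Tendsto (fun n : ℕ => D + 1 / ((n : ℝ) + 1)) atTop (𝓝 (D + 0)) :=
      tendsto_const_nhds.add tendsto_one_div_add_atTop_nhds_zero_nat
    rw [add_zero] at h1
    exact (tendsto_of_tendsto_of_tendsto_of_le_of_le tendsto_const_nhds h1
      (fun n => hcD n) (fun n => (hcl n).le)).mono_left hU
  have hupper : ∀ s ∈ Icc 0 D, ∀ s' ∈ Icc 0 D, s < s' → rdist g (c0 s) (c0 s') ≤ s' - s := by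
    intro s hs s' hs' hss
    obtain ⟨hn1, ht1⟩ := hc0 s hs
    obtain ⟨hn2, ht2⟩ := hc0 s' hs'
    have hlim2 : Tendsto (fun n => M * ‖c0 s - c n (τ n s)‖ +
        ((s' - s) * length g (c n) / D + M * ‖c n (τ n s') - c0 s'‖))
        (hyperfilter ℕ : Filter ℕ) (𝓝 (M * ‖c0 s - c0 s‖ +
        ((s' - s) * D / D + M * ‖c0 s' - c0 s'‖))) := by
      refine Tendsto.add ?_ (Tendsto.add ?_ ?_)
      · exact ((tendsto_const_nhds.sub ht1).norm).const_mul M
      · exact (hl_tendsto.const_mul (s' - s)).div_const D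
      · exact ((ht2.sub tendsto_const_nhds).norm).const_mul M
    have hval : M * ‖c0 s - c0 s‖ + ((s' - s) * D / D + M * ‖c0 s' - c0 s'‖) = s' - s := by
      simp only [sub_self, norm_zero, mul_zero, zero_add, add_zero]
      field_simp
    rw [hval] at hlim2
    refine ge_of_tendsto' hlim2 (fun n => ?_)
    have hp1 : ‖c n (τ n s)‖ = 1 := (hc n).sphere _
    have hp2 : ‖c n (τ n s')‖ = 1 := (hc n).sphere _
    have h1 := (htri (c0 s) (c n (τ n s)) (c0 s') hn1 hp1 hn2).2.2
    have h2 := (htri (c n (τ n s)) (c n (τ n s')) (c0 s') hp1 hp2 hn2).2.2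
    have h3 := (hb (c0 s) (c n (τ n s)) hn1 hp1).2.2
    have h4 := (hb (c n (τ n s')) (c0 s') hp2 hn2).2.2
    have h5 := hpiece n s hs s' hs' hss
    linarith
  have h0mem : (0 : ℝ) ∈ Icc 0 D := ⟨le_rfl, hD.le⟩
  have hDmem : D ∈ Icc 0 D := ⟨hD.le, le_rfl⟩
  have hc00 : c0 0 = x := by
    have h1 := (hc0 0 h0mem).2
    have h2 : (fun n => c n (τ n 0)) = fun _ => x := by
      funext n
      rw [(hτ n 0 h0mem).2.2.1 rfl]
      exact (hc n).left
    rw [h2] at h1
    exact tendsto_nhds_unique h1 tendsto_const_nhds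
  have hc0D : c0 D = y := by
    have h1 := (hc0 D hDmem).2
    have h2 : (fun n => c n (τ n D)) = fun _ => y := by
      funext n
      rw [(hτ n D hDmem).2.2.2 rfl]
      exact (hc n).right
    rw [h2] at h1
    exact tendsto_nhds_unique h1 tendsto_const_nhds
  -- from the endpoints
  have hupper' : ∀ s ∈ Icc 0 D, ∀ s' ∈ Icc 0 D, s ≤ s' → rdist g (c0 s) (c0 s') ≤ s' - s := by
    intro s hs s' hs' hss
    rcases hss.eq_or_lt with h | h
    · rw [h, hself _ (hc0 s' hs').1]; simp
    · exact hupper s hs s' hs' h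
  have heq : ∀ s ∈ Icc 0 D, ∀ s' ∈ Icc 0 D, s ≤ s' → rdist g (c0 s) (c0 s') = s' - s := by
    intro s hs s' hs' hss
    apply le_antisymm (hupper' s hs s' hs' hss)
    have h1 := hupper' 0 h0mem s hs hs.1
    have h2 := hupper' s' hs' D hDmem hs'.2
    rw [hc00] at h1
    rw [hc0D] at h2
    have h3 := (htri x (c0 s) y hx (hc0 s hs).1 hy).2.2
    have h4 := (htri (c0 s) (c0 s') y (hc0 s hs).1 (hc0 s' hs').1 hy).2.2
    linarith
  have hclamp : ∀ t : ℝ, max 0 (min t D) ∈ Icc 0 D := fun t =>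
    ⟨le_max_left _ _, max_le hD.le (min_le_right _ _)⟩
  have hclamp_id : ∀ t ∈ Icc 0 D, max 0 (min t D) = t := by
    intro t ht
    rw [min_eq_left ht.2, max_eq_right ht.1]
  refine ⟨fun t => c0 (max 0 (min t D)), fun t => (hc0 _ (hclamp t)).1, ?_, ?_, ?_⟩
  · simp only [hclamp_id 0 h0mem]; exact hc00
  · simp only [hclamp_id D hDmem]; exact hc0D
  · intro s hs t ht
    simp only [hclamp_id s hs, hclamp_id t ht]
    rcases le_total s t with h | h
    · rw [heq s hs t ht h, abs_sub_comm, abs_of_nonneg (sub_nonneg.2 h)]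
    · rw [(htri (c0 t) (c0 s) (c0 s) (hc0 t ht).1 (hc0 s hs).1 (hc0 s hs).1).1,
        heq t ht s hs h, abs_of_nonneg (sub_nonneg.2 h)]

end Pool.Agent.Work.MP_02f065_gt.RPn
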