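import Pool.Agent.Work.MP_02f065_gt.Bd.B06
import Pool.Agent.Work.MP_02f065_gt.Bd.B03
import Pool.Agent.Work.MP_02f065_gt.Bd.B05
import Pool.Agent.Work.MP_02f065_gt.RPn.ItemA5
import Pool.Agent.Work.MP_02f065_gt.Bd.B04

/-! The theorem in all dimensions: all items put together. -/

open MeasureTheory Set Filter Topology

noncomputable section

namespace Pool.Agent.Work.MP_02f065_gt.RPn

theorem A4a_holds : claimA4a := itemA4a itemA1
theorem A4b_holds : claimA4b := itemA4b itemA3 A4a_holds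
theorem A6_holds : claimA6 := itemA6 A4a_holds A4b_holds (itemA5 itemA2 A4a_holds A4b_holds)
theorem BA_holds : claimBA := itemBA itemR
theorem BM_holds : claimBM := itemBM BA_holds itemR
theorem BL_holds : claimBL := itemBL itemR
theorem BD2_holds : claimBD2 := itemBD2 itemR
theorem BS_holds : claimBS := itemBS itemV1a itemR
theorem BV_holds : claimBV :=
  itemBV itemR BA_holds BM_holds itemBD1 BD2_holds itemBD3 BS_holds
theorem S1_holds : claimS1 := itemS1 itemS0
theorem S2_holds : claimS2 := itemS2 itemS0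
theorem S3_holds : claimS3 := itemS3 itemS0 S1_holds
theorem V1_holds : claimV1 :=
  itemV1 itemV1a itemV1b itemV1c (itemV1d itemK itemR) itemR itemS0
theorem V2_holds : claimV2 := itemV2 (itemV2a itemS0 S1_holds) S1_holds (Toric.itemC4 Toric.itemC1a)
theorem V3_holds : claimV3 := itemV3 V1_holds V2_holds BD2_holds itemBD3
theorem E3w_holds : claimE3w := itemE3w itemE1w itemE2w
theorem Z1_holds : claimZ1 := itemZ1 itemR itemZ0
theorem Z2a_holds : claimZ2a := itemZ2a itemZ0
theorem Z2_holds : claimZ2 := itemZ2 Z2a_holds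
theorem Z3_holds : claimZ3 := itemZ3 itemA2 itemZ0 Z1_holds Z2a_holds
theorem Z4_holds : claimZ4 := itemZ4 itemZ0 Z1_holds
theorem Z8_holds : claimZ8 := itemZ8 itemV1a itemV1b itemV1c itemK itemR itemZ0
theorem Z9_holds : claimZ9 := itemZ9 itemZ0
theorem Z11_holds : claimZ11 := itemZ11 BD2_holds itemBD3 Z8_holds Z9_holds itemZ10

theorem tC1 : Toric.claimC1 := Toric.itemC1 Toric.itemA1 Toric.itemC1a
theorem tC2 : Toric.claimC2 :=
  Toric.itemC2 Toric.itemA3 Toric.itemR1 tC1
    (Toric.itemC2a Toric.itemA2 Toric.itemR1 Toric.itemR2 Toric.itemR3 Toric.itemC1a)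
    (Toric.itemC2b Toric.itemA2 Toric.itemR1 Toric.itemR2 Toric.itemR3 Toric.itemC1a)
theorem tC3 : Toric.claimC3 := Toric.itemC3 Toric.itemA2 Toric.itemR1 Toric.itemR2 Toric.itemR3
theorem tD5 : Toric.claimD5 :=
  Toric.itemD5 (Toric.D1_of Toric.itemD1a Toric.itemD1b) (Toric.itemD2a Toric.itemD2c)
    (Toric.itemD3 Toric.itemD2b Toric.itemD2c) Toric.itemD4
theorem tE3 : Toric.claimE3 :=
  Toric.itemE3 (Toric.itemE1 (Toric.itemE1b Toric.itemE1a)) Toric.itemE2

theorem main_holds : claimMain :=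
  main_of tC1 tC2 tC3 tD5 tE3 S1_holds S2_holds S3_holds itemS4 E3w_holds itemE4a itemE4b
    itemE4c itemE4d A6_holds itemHaar BM_holds BL_holds BV_holds V3_holds

theorem main1_holds : claimMain1 :=
  main1_of Z2_holds Z3_holds Z4_holds itemZ5 itemZ6 itemZ7 Z11_holds itemE4d A6_holds itemHaar
    BM_holds BL_holds BV_holds

/-- The theorem for all `P >= 1`, `Q >= 2`. -/
theorem sharp (P Q : ℕ) (hP : 1 ≤ P) (hQ : 2 ≤ Q) (g : Field (Ix P Q)) (hg : IsMetric g)
    (hc : ConformallyInv g) : ∃ (γ : ℝ → E (Ix P Q)) (l : ℝ), IsClosedGeodesic g γ l ∧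
    (l / Real.pi) ^ (P + Q - 1) ≤ vol g / vol (round : Field (Ix P Q)) := by
  rcases Nat.lt_or_ge P 2 with h | h
  · have h1 : P = 1 := by omega
    subst h1
    exact main1_holds Q hQ g hg hc
  · exact main_holds P Q h hQ g hg hc

end Pool.Agent.Work.MP_02f065_gt.RPn
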